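import Mathlib

/-! # Almost all integers -/

namespace Pool.Agent.DNS

/-- `P` holds for almost all integers: the proportion of those with `P c` among the `c` with
`|c| ≤ N` tends to `1`. -/
def AlmostAll (P : ℤ → Prop) : Prop :=
  Filter.Tendsto (fun N : ℕ => (({c : ℤ | |c| ≤ N ∧ P c}.ncard : ℕ) : ℝ) / (2 * N + 1))
    Filter.atTop (nhds 1)

end Pool.Agent.DNS
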