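import Mathlib

/-!
# The sum of the `1 / p` over the primes in a residue class diverges

From the lower bound of Mathlib for the L-series of the von Mangoldt function on a residue class near `s = 1`: if the
sum converged, the primes would contribute at most `c / (2 δ)` plus a constant at `s = 1 + δ`, with `c = 1 / φ(m)`,
by `log p ≤ p ^ δ / δ`.
-/

namespace Pool.Agent.DNS

open ArithmeticFunction

private theorem divdns_term (m : ℕ) [NeZero m] (a : ZMod m) (s : Finset ℕ) {δ : ℝ} (hδ : 0 < δ)
    (n : ℕ) :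
    vonMangoldt.residueClass a n / (n : ℝ) ^ (1 + δ) ≤
      ((if n.Prime then 0 else vonMangoldt.residueClass a n) / (n : ℝ) +
        Set.indicator (s : Set ℕ) (fun n => vonMangoldt.residueClass a n / (n : ℝ)) n) +
        (1 / δ) * Set.indicator ((s : Set ℕ)ᶜ)
          (Set.indicator {n : ℕ | n.Prime ∧ (n : ZMod m) = a} fun n => (1 : ℝ) / n) n := by
  have hr := vonMangoldt.residueClass_nonneg a n
  have h2 : 0 ≤ Set.indicator (s : Set ℕ)
      (fun n => vonMangoldt.residueClass a n / (n : ℝ)) n := by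
    refine Set.indicator_nonneg (fun i _ => ?_) n
    exact div_nonneg (vonMangoldt.residueClass_nonneg a i) (Nat.cast_nonneg _)
  have h3 : 0 ≤ (1 / δ) * Set.indicator ((s : Set ℕ)ᶜ)
      (Set.indicator {n : ℕ | n.Prime ∧ (n : ZMod m) = a} fun n => (1 : ℝ) / n) n := by
    refine mul_nonneg (by positivity) (Set.indicator_nonneg (fun i _ => ?_) n)
    exact Set.indicator_nonneg (fun j _ => by positivity) i
  rcases Nat.eq_zero_or_pos n with rfl | hn
  · rw [vonMangoldt.residueClass_apply_zero, zero_div, ite_self, zero_div, zero_add]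
    exact add_nonneg h2 h3
  have hn1 : (1 : ℝ) ≤ n := by exact_mod_cast hn
  have hn0 : (0 : ℝ) < n := by linarith
  have hpow : (n : ℝ) ≤ (n : ℝ) ^ (1 + δ) := by
    calc (n : ℝ) = (n : ℝ) ^ (1 : ℝ) := (Real.rpow_one _).symm
      _ ≤ (n : ℝ) ^ (1 + δ) := Real.rpow_le_rpow_of_exponent_le hn1 (by linarith)
  have hle : vonMangoldt.residueClass a n / (n : ℝ) ^ (1 + δ) ≤
      vonMangoldt.residueClass a n / (n : ℝ) := div_le_div_of_nonneg_left hr hn0 hpow
  by_cases hp : n.Prime
  · rw [if_pos hp, zero_div, zero_add]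
    by_cases hs : n ∈ s
    · have e : Set.indicator (s : Set ℕ)
          (fun n => vonMangoldt.residueClass a n / (n : ℝ)) n =
            vonMangoldt.residueClass a n / (n : ℝ) := Set.indicator_of_mem (by exact_mod_cast hs) _
      rw [e]
      linarith
    · have e : Set.indicator ((s : Set ℕ)ᶜ)
          (Set.indicator {n : ℕ | n.Prime ∧ (n : ZMod m) = a} fun n => (1 : ℝ) / n) n =
          Set.indicator {n : ℕ | n.Prime ∧ (n : ZMod m) = a} (fun n => (1 : ℝ) / n) n :=
        Set.indicator_of_mem (by simpa using hs) _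
      rw [e]
      by_cases ha : (n : ZMod m) = a
      · have e1 : Set.indicator {n : ℕ | n.Prime ∧ (n : ZMod m) = a} (fun n => (1 : ℝ) / n) n =
            1 / n := Set.indicator_of_mem
          (show n ∈ {n : ℕ | n.Prime ∧ (n : ZMod m) = a} from ⟨hp, ha⟩) _
        have e2 : vonMangoldt.residueClass a n = Real.log n := by
          have : vonMangoldt.residueClass a n = vonMangoldt n :=
            Set.indicator_of_mem (show n ∈ {n : ℕ | (n : ZMod m) = a} from ha) _
          rw [this, vonMangoldt_apply_prime hp]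
        rw [e1, e2]
        have h4 := Real.log_le_rpow_div hn0.le hδ
        have h5 : Real.log n / (n : ℝ) ^ (1 + δ) ≤ 1 / δ * (1 / (n : ℝ)) := by
          rw [Real.rpow_add hn0, Real.rpow_one]
          have h6 : 0 < (n : ℝ) ^ δ := Real.rpow_pos_of_pos hn0 _
          rw [div_le_iff₀ (by positivity)]
          calc Real.log n ≤ (n : ℝ) ^ δ / δ := h4
            _ = 1 / δ * (1 / (n : ℝ)) * ((n : ℝ) * (n : ℝ) ^ δ) := by field_simp
        linarith
      · have e2 : vonMangoldt.residueClass a n = 0 :=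
          Set.indicator_of_notMem (show n ∉ {n : ℕ | (n : ZMod m) = a} from ha) _
        rw [e] at h3
        rw [e2, zero_div]
        linarith
  · rw [if_neg hp]
    linarith

theorem not_summable_ap (m : ℕ) [NeZero m] {a : ZMod m} (ha : IsUnit a) :
    ¬ Summable (Set.indicator {n : ℕ | n.Prime ∧ (n : ZMod m) = a} fun n => (1 : ℝ) / n) := by
  intro hg
  set g : ℕ → ℝ := Set.indicator {n : ℕ | n.Prime ∧ (n : ZMod m) = a} fun n => (1 : ℝ) / n
    with hgdef
  obtain ⟨C, hC⟩ := vonMangoldt.LSeries_residueClass_lower_bound ha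
  have hF := vonMangoldt.summable_residueClass_non_primes_div a
  set c : ℝ := (m.totient : ℝ)⁻¹ with hc
  have hc0 : 0 < c := by
    have : 0 < m.totient := Nat.totient_pos.2 (NeZero.pos m)
    rw [hc]
    positivity
  have ht := hg.hasSum
  obtain ⟨s, hs⟩ := (Metric.tendsto_atTop.1 (show Filter.Tendsto (fun s : Finset ℕ => ∑ i ∈ s, g i)
    Filter.atTop (nhds (∑' i, g i)) from ht)) (c / 2) (by linarith)
  have hs1 := hs s le_rfl
  rw [Real.dist_eq] at hs1
  have hcomp : ∑ i ∈ s, g i + ∑' i, Set.indicator ((s : Set ℕ)ᶜ) g i = ∑' i, g i := by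
    rw [← hg.sum_add_tsum_compl (s := s), tsum_subtype]
  have hT : ∑' i, Set.indicator ((s : Set ℕ)ᶜ) g i < c / 2 := by
    have := (abs_lt.1 hs1).1
    linarith
  set T : ℝ := ∑' i, Set.indicator ((s : Set ℕ)ᶜ) g i with hTd
  have hgT : Summable (Set.indicator ((s : Set ℕ)ᶜ) g) := hg.indicator _
  have hR : Summable (Set.indicator (s : Set ℕ)
      (fun n => vonMangoldt.residueClass a n / (n : ℝ))) := by
    refine summable_of_ne_finset_zero (s := s) fun b hb => ?_
    exact Set.indicator_of_notMem (by exact_mod_cast hb) _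
  set A : ℝ := ∑' n : ℕ, (if n.Prime then 0 else vonMangoldt.residueClass a n) / (n : ℝ) with hA
  set B : ℝ := ∑' n : ℕ, Set.indicator (s : Set ℕ)
      (fun n => vonMangoldt.residueClass a n / (n : ℝ)) n with hB
  have key : ∀ δ : ℝ, 0 < δ → δ ≤ 1 → c / δ - C ≤ A + B + 1 / δ * T := by
    intro δ h0 h1
    have hx := hC (x := 1 + δ) ⟨by linarith, by linarith⟩
    rw [add_sub_cancel_left] at hx
    have hsum : Summable fun n : ℕ =>
        ((if n.Prime then 0 else vonMangoldt.residueClass a n) / (n : ℝ) +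
        Set.indicator (s : Set ℕ) (fun n => vonMangoldt.residueClass a n / (n : ℝ)) n) +
        (1 / δ) * Set.indicator ((s : Set ℕ)ᶜ) g n := (hF.add hR).add (hgT.mul_left _)
    have hsum' : Summable fun n : ℕ => vonMangoldt.residueClass a n / (n : ℝ) ^ (1 + δ) :=
      Summable.of_nonneg_of_le (fun n => div_nonneg (vonMangoldt.residueClass_nonneg a n)
        (Real.rpow_nonneg (Nat.cast_nonneg _) _)) (fun n => divdns_term m a s h0 n) hsum
    refine hx.trans ((hsum'.tsum_le_tsum (fun n => divdns_term m a s h0 n) hsum).trans ?_)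
    rw [(hF.add hR).tsum_add (hgT.mul_left _), hF.tsum_add hR, tsum_mul_left]
  have hE : 0 < |A + B + C| + 1 := by positivity
  have h2 : 0 < (c - T) := by linarith
  obtain ⟨δ, hd0, hd1, hd2⟩ : ∃ δ : ℝ, 0 < δ ∧ δ ≤ 1 ∧ δ * (|A + B + C| + 1) ≤ c - T := by
    refine ⟨min 1 ((c - T) / (|A + B + C| + 1)), lt_min one_pos (by positivity), min_le_left _ _, ?_⟩
    calc min 1 ((c - T) / (|A + B + C| + 1)) * (|A + B + C| + 1)
        ≤ (c - T) / (|A + B + C| + 1) * (|A + B + C| + 1) :=
          mul_le_mul_of_nonneg_right (min_le_right _ _) hE.le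
      _ = c - T := by field_simp
  have h3 := key δ hd0 hd1
  have h4 : (c - T) / δ ≤ A + B + C := by
    have : (c - T) / δ = c / δ - 1 / δ * T := by ring
    rw [this]
    linarith
  rw [div_le_iff₀ hd0] at h4
  have h5 := le_abs_self (A + B + C)
  nlinarith

end Pool.Agent.DNS
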