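import Mathlib

/-!
# Few integers are divisible by the square of a large prime

Union bound over `T`, with `∑_{n > K} 1 / n ^ 2 ≤ 1 / K`.
-/

open scoped BigOperators

namespace Pool.Agent.DNS

private theorem sqrdns_card (N m : ℕ) :
    ((Finset.Icc 1 N).filter fun c => m ∣ c).card = N / m := by
  have h1 : Finset.Icc 1 N = Finset.Ioc 0 N := by
    ext c
    simp only [Finset.mem_Icc, Finset.mem_Ioc]
    omega
  rw [h1]
  exact Nat.Ioc_filter_dvd_card_eq_div N m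

private theorem sqrdns_sum (T : Finset ℕ) {K : ℕ} (hK : 0 < K) (hT : ∀ p ∈ T, K < p) :
    ∑ p ∈ T, (((p : ℝ) ^ 2)⁻¹) ≤ (K : ℝ)⁻¹ := by
  have hsub : T ⊆ Finset.Ioc K (T.sup id + K) := by
    intro p hp
    rw [Finset.mem_Ioc]
    refine ⟨hT p hp, ?_⟩
    have := Finset.le_sup (f := id) hp
    simp only [id] at this
    omega
  calc ∑ p ∈ T, (((p : ℝ) ^ 2)⁻¹) ≤ ∑ p ∈ Finset.Ioc K (T.sup id + K), (((p : ℝ) ^ 2)⁻¹) :=
        Finset.sum_le_sum_of_subset_of_nonneg hsub fun _ _ _ => by positivity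
    _ ≤ (K : ℝ)⁻¹ - ((T.sup id + K : ℕ) : ℝ)⁻¹ :=
        sum_Ioc_inv_sq_le_sub hK.ne' (Nat.le_add_left _ _)
    _ ≤ (K : ℝ)⁻¹ := sub_le_self _ (by positivity)

theorem squares (T : Finset ℕ) {K : ℕ} (hK : 0 < K) (hT : ∀ p ∈ T, K < p) (N : ℕ) :
    ((((Finset.Icc 1 N).filter fun c => ∃ p ∈ T, p ^ 2 ∣ c).card : ℕ) : ℝ) ≤ N / K := by
  classical
  have h1 : ((Finset.Icc 1 N).filter fun c => ∃ p ∈ T, p ^ 2 ∣ c) ⊆
      T.biUnion fun p => (Finset.Icc 1 N).filter fun c => p ^ 2 ∣ c := by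
    intro c hc
    rw [Finset.mem_filter] at hc
    obtain ⟨hc1, p, hp, hpc⟩ := hc
    rw [Finset.mem_biUnion]
    exact ⟨p, hp, Finset.mem_filter.2 ⟨hc1, hpc⟩⟩
  have h2 : ((Finset.Icc 1 N).filter fun c => ∃ p ∈ T, p ^ 2 ∣ c).card ≤ ∑ p ∈ T, N / p ^ 2 :=
    (Finset.card_le_card h1).trans (Finset.card_biUnion_le.trans
      (Finset.sum_le_sum fun p _ => (sqrdns_card N (p ^ 2)).le))
  calc ((((Finset.Icc 1 N).filter fun c => ∃ p ∈ T, p ^ 2 ∣ c).card : ℕ) : ℝ)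
      ≤ ((∑ p ∈ T, N / p ^ 2 : ℕ) : ℝ) := by exact_mod_cast h2
    _ = ∑ p ∈ T, ((N / p ^ 2 : ℕ) : ℝ) := by push_cast; rfl
    _ ≤ ∑ p ∈ T, (N : ℝ) * (((p : ℝ) ^ 2)⁻¹) := by
        refine Finset.sum_le_sum fun p _ => ?_
        have h3 := Nat.cast_div_le (α := ℝ) (m := N) (n := p ^ 2)
        rw [div_eq_mul_inv, Nat.cast_pow] at h3
        exact h3
    _ = N * ∑ p ∈ T, (((p : ℝ) ^ 2)⁻¹) := by rw [Finset.mul_sum]
    _ ≤ N * (K : ℝ)⁻¹ := mul_le_mul_of_nonneg_left (sqrdns_sum T hK hT) (Nat.cast_nonneg _)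
    _ = N / K := (div_eq_mul_inv _ _).symm

end Pool.Agent.DNS
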