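import Pool.Agent.DNS.Mom
import Pool.Agent.DNS.Sqr

/-!
# Almost all positive integers have two large prime factors in `S`, each exactly once

For a set `S` of primes with divergent sum of reciprocals, the number of `c ≤ N` without two different
prime factors in `S`, larger than `C` and dividing `c` exactly once, is at most `ε N` for large `N`.
-/

open scoped BigOperators

namespace Pool.Agent.DNS

private lemma posdns_big (S : Set ℕ)
    (hd : ¬ Summable (Set.indicator S fun n => (1 : ℝ) / n)) (K : ℕ) (M : ℝ) :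
    ∃ T : Finset ℕ, (∀ p ∈ T, p ∈ S ∧ K < p) ∧ M < ∑ p ∈ T, (1 : ℝ) / p := by
  classical
  by_contra hcon
  push Not at hcon
  apply hd
  have hf0 : ∀ n, 0 ≤ Set.indicator S (fun n : ℕ => (1 : ℝ) / n) n := fun n =>
    Set.indicator_nonneg (fun x _ => by positivity) n
  refine summable_of_sum_le
    (c := M + ∑ i ∈ Finset.range (K + 1), Set.indicator S (fun n : ℕ => (1 : ℝ) / n) i) hf0 ?_
  intro s
  have h1 := hcon (s.filter fun p => p ∈ S ∧ K < p)
    (fun p hp => (Finset.mem_filter.mp hp).2)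
  have h2 : ∑ p ∈ s.filter (fun p => p ∈ S ∧ K < p), (1 : ℝ) / p =
      ∑ p ∈ s.filter (fun p => K < p), Set.indicator S (fun n : ℕ => (1 : ℝ) / n) p := by
    rw [Finset.sum_filter, Finset.sum_filter]
    refine Finset.sum_congr rfl fun p _ => ?_
    by_cases hpS : p ∈ S
    · by_cases hpK : K < p
      · simp [hpS, hpK]
      · simp [hpK]
    · simp [hpS]
  have h3 : ∑ p ∈ s.filter (fun p => ¬ K < p), Set.indicator S (fun n : ℕ => (1 : ℝ) / n) p ≤
      ∑ i ∈ Finset.range (K + 1), Set.indicator S (fun n : ℕ => (1 : ℝ) / n) i := by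
    refine Finset.sum_le_sum_of_subset_of_nonneg ?_ (fun i _ _ => hf0 i)
    intro p hp
    have := (Finset.mem_filter.mp hp).2
    exact Finset.mem_range.mpr (by omega)
  have h4 := Finset.sum_filter_add_sum_filter_not s (fun p => K < p)
    (Set.indicator S (fun n : ℕ => (1 : ℝ) / n))
  rw [h2] at h1
  linarith

private lemma posdns_val {p c : ℕ} (hp : p.Prime) (hc : c ≠ 0) (h1 : p ∣ c) (h2 : ¬ p ^ 2 ∣ c) :
    padicValNat p c = 1 := by
  have : Fact p.Prime := ⟨hp⟩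
  have ha : 1 ≤ padicValNat p c := by
    rw [← padicValNat_dvd_iff_le hc]
    simpa using h1
  have hb : ¬ 2 ≤ padicValNat p c := by
    rw [← padicValNat_dvd_iff_le hc]
    exact h2
  omega

theorem almost_pos (S : Set ℕ) (hS : ∀ p ∈ S, p.Prime)
    (hd : ¬ Summable (Set.indicator S fun n => (1 : ℝ) / n)) (C : ℕ) {ε : ℝ} (hε : 0 < ε) :
    ∃ N₀ : ℕ, ∀ N : ℕ, N₀ ≤ N →
      (({c : ℕ | 1 ≤ c ∧ c ≤ N ∧ ¬ ∃ p q : ℕ, p ∈ S ∧ q ∈ S ∧ p ≠ q ∧ C < p ∧ C < q ∧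
        padicValNat p c = 1 ∧ padicValNat q c = 1}.ncard : ℕ) : ℝ) ≤ ε * N := by
  classical
  obtain ⟨K₀, hK₀⟩ := exists_nat_gt (2 / ε)
  set K : ℕ := K₀ + C + 1 with hKdef
  have hKpos : 0 < K := by omega
  have hKr : 2 / ε ≤ (K : ℝ) := by
    have : (K₀ : ℝ) ≤ (K : ℝ) := by exact_mod_cast (by omega : K₀ ≤ K)
    linarith
  obtain ⟨T, hT, hM⟩ := posdns_big S hd K (2 + 24 / ε)
  set σ : ℝ := ∑ p ∈ T, (1 : ℝ) / p with hσdef
  have h24 : 0 < 24 / ε := by positivity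
  have hσ2 : 2 ≤ σ := by linarith
  have hσ24 : 24 / ε ≤ σ := by linarith
  refine ⟨T.card, fun N hN => ?_⟩
  have hTp : ∀ p ∈ T, p.Prime := fun p hp => hS p (hT p hp).1
  have hfew := few T hTp (by rw [← hσdef]; linarith) N
  have hsq := squares T hKpos (fun p hp => (hT p hp).2) N
  rw [← hσdef] at hfew
  set A : Finset ℕ := (Finset.Icc 1 N).filter fun c => (T.filter fun p => p ∣ c).card ≤ 1 with hA
  set B : Finset ℕ := (Finset.Icc 1 N).filter fun c => ∃ p ∈ T, p ^ 2 ∣ c with hB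
  have hsub : {c : ℕ | 1 ≤ c ∧ c ≤ N ∧ ¬ ∃ p q : ℕ, p ∈ S ∧ q ∈ S ∧ p ≠ q ∧ C < p ∧ C < q ∧
        padicValNat p c = 1 ∧ padicValNat q c = 1} ⊆ ((A ∪ B : Finset ℕ) : Set ℕ) := by
    rintro c ⟨hc1, hcN, hno⟩
    have hcI : c ∈ Finset.Icc 1 N := Finset.mem_Icc.mpr ⟨hc1, hcN⟩
    rw [Finset.mem_coe, Finset.mem_union]
    by_contra hcon
    rw [not_or] at hcon
    obtain ⟨hcA, hcB⟩ := hcon
    have hA' : ¬ (T.filter fun p => p ∣ c).card ≤ 1 := fun h =>
      hcA (Finset.mem_filter.mpr ⟨hcI, h⟩)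
    have hB' : ¬ ∃ p ∈ T, p ^ 2 ∣ c := fun h =>
      hcB (Finset.mem_filter.mpr ⟨hcI, h⟩)
    obtain ⟨p, hp, q, hq, hpq⟩ := Finset.one_lt_card.mp (not_le.mp hA')
    obtain ⟨hpT, hpc⟩ := Finset.mem_filter.mp hp
    obtain ⟨hqT, hqc⟩ := Finset.mem_filter.mp hq
    have hp' := hT p hpT
    have hq' := hT q hqT
    exact hno ⟨p, q, hp'.1, hq'.1, hpq, by omega, by omega,
      posdns_val (hTp p hpT) (by omega) hpc (fun h => hB' ⟨p, hpT, h⟩),
      posdns_val (hTp q hqT) (by omega) hqc (fun h => hB' ⟨q, hqT, h⟩)⟩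
  have hcard : {c : ℕ | 1 ≤ c ∧ c ≤ N ∧ ¬ ∃ p q : ℕ, p ∈ S ∧ q ∈ S ∧ p ≠ q ∧ C < p ∧ C < q ∧
        padicValNat p c = 1 ∧ padicValNat q c = 1}.ncard ≤ A.card + B.card := by
    refine (Set.ncard_le_ncard hsub (Finset.finite_toSet _)).trans ?_
    rw [Set.ncard_coe_finset]
    exact Finset.card_union_le A B
  have hcardr : (({c : ℕ | 1 ≤ c ∧ c ≤ N ∧ ¬ ∃ p q : ℕ, p ∈ S ∧ q ∈ S ∧ p ≠ q ∧ C < p ∧ C < q ∧
        padicValNat p c = 1 ∧ padicValNat q c = 1}.ncard : ℕ) : ℝ) ≤ (A.card : ℝ) + B.card := by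
    exact_mod_cast hcard
  have hNr : (T.card : ℝ) ≤ N := by exact_mod_cast hN
  have hN0 : (0 : ℝ) ≤ N := Nat.cast_nonneg N
  have hKr0 : (0 : ℝ) < K := by exact_mod_cast hKpos
  -- the squares
  have hBle : (B.card : ℝ) ≤ ε / 2 * N := by
    refine hsq.trans ?_
    rw [div_le_iff₀ hKr0]
    have h1 : 1 ≤ ε / 2 * K := by
      have := mul_le_mul_of_nonneg_left hKr (by positivity : (0 : ℝ) ≤ ε / 2)
      have h2 : ε / 2 * (2 / ε) = 1 := by field_simp
      linarith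
    nlinarith
  -- the few
  have hAle : (A.card : ℝ) ≤ ε / 2 * N := by
    have h1 : N * σ + 2 * σ * T.card ≤ 3 * N * σ := by nlinarith
    have h2 : (A.card : ℝ) * (σ - 1) ^ 2 ≤ 3 * N * σ := hfew.trans h1
    have h3 : σ ^ 2 / 4 ≤ (σ - 1) ^ 2 := by nlinarith
    have hA0 : (0 : ℝ) ≤ A.card := Nat.cast_nonneg _
    have h4 : (A.card : ℝ) * (σ ^ 2 / 4) ≤ 3 * N * σ :=
      (mul_le_mul_of_nonneg_left h3 hA0).trans h2
    have hσ0 : 0 < σ := by linarith
    have h5 : (A.card : ℝ) * σ ≤ 12 * N := by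
      by_contra h
      push Not at h
      have : 12 * (N : ℝ) * σ < A.card * σ * σ := mul_lt_mul_of_pos_right h hσ0
      nlinarith
    have h6 : (A.card : ℝ) * (24 / ε) ≤ 12 * N :=
      (mul_le_mul_of_nonneg_left hσ24 hA0).trans h5
    have h7 : (A.card : ℝ) = (A.card : ℝ) * (24 / ε) * (ε / 24) := by field_simp
    rw [h7]
    have := mul_le_mul_of_nonneg_right h6 (by positivity : (0 : ℝ) ≤ ε / 24)
    nlinarith
  linarith

end Pool.Agent.DNS
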