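import Pool.Agent.DNS.Defs
import Pool.Agent.DNS.Div
import Pool.Agent.DNS.Pos

/-!
# MODULE DNS-Fin : almost all integers

`AlmostAll.mono`: the property is monotone. `of_pos`: passage from the positive integers to all integers. `density`: for odd `m` almost all integers are
divisible exactly once by two different large primes `p`, `q` with `p - 1` and `q - 1` prime to `m` (primes in the class of `2` modulo `m`).
-/

open scoped BigOperators

namespace Pool.Agent.DNS

open Classical in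
private theorem findns_ncard (P : ℤ → Prop) (N : ℕ) :
    ({c : ℤ | |c| ≤ N ∧ P c}.ncard : ℕ) = ((Finset.Icc (-(N : ℤ)) N).filter P).card := by
  rw [← Set.ncard_coe_finset]
  congr 1
  ext c
  simp [abs_le]

private theorem findns_card (N : ℕ) : (Finset.Icc (-(N : ℤ)) N).card = 2 * N + 1 := by
  rw [Int.card_Icc]
  omega

theorem AlmostAll.mono {P Q : ℤ → Prop} (hP : AlmostAll P) (h : ∀ c, P c → Q c) : AlmostAll Q := by
  classical
  unfold AlmostAll at *
  refine tendsto_of_tendsto_of_tendsto_of_le_of_le hP tendsto_const_nhds ?_ ?_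
  · intro N
    have hpos : (0 : ℝ) < 2 * (N : ℝ) + 1 := by positivity
    simp only
    rw [findns_ncard, findns_ncard]
    apply div_le_div_of_nonneg_right _ hpos.le
    have hle : ((Finset.Icc (-(N : ℤ)) N).filter P).card ≤
        ((Finset.Icc (-(N : ℤ)) N).filter Q).card := by
      refine Finset.card_le_card (fun c hc => ?_)
      rw [Finset.mem_filter] at hc ⊢
      exact ⟨hc.1, h c hc.2⟩
    exact_mod_cast hle
  · intro N
    have hpos : (0 : ℝ) < 2 * (N : ℝ) + 1 := by positivity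
    simp only
    rw [findns_ncard, div_le_one hpos]
    have h1 := Finset.card_filter_le (Finset.Icc (-(N : ℤ)) N) Q
    rw [findns_card] at h1
    exact_mod_cast h1

open Classical in
private theorem findns_exc (P : ℕ → Prop) (N : ℕ) :
    ((Finset.Icc (-(N : ℤ)) N).filter fun c => ¬ P c.natAbs).card ≤
      1 + 2 * ((Finset.Icc 1 N).filter fun c => ¬ P c).card := by
  set E : Finset ℕ := (Finset.Icc 1 N).filter fun c => ¬ P c with hE
  have hsub : ((Finset.Icc (-(N : ℤ)) N).filter fun c => ¬ P c.natAbs) ⊆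
      insert 0 ((E.image fun n : ℕ => (n : ℤ)) ∪ (E.image fun n : ℕ => -(n : ℤ))) := by
    intro c hc
    rw [Finset.mem_filter, Finset.mem_Icc] at hc
    obtain ⟨⟨h1, h2⟩, h3⟩ := hc
    rw [Finset.mem_insert, Finset.mem_union, Finset.mem_image, Finset.mem_image]
    rcases lt_trichotomy c 0 with h0 | h0 | h0
    · right; right
      refine ⟨c.natAbs, ?_, by omega⟩
      rw [hE, Finset.mem_filter, Finset.mem_Icc]
      exact ⟨⟨by omega, by omega⟩, h3⟩
    · left; exact h0
    · right; left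
      refine ⟨c.natAbs, ?_, by omega⟩
      rw [hE, Finset.mem_filter, Finset.mem_Icc]
      exact ⟨⟨by omega, by omega⟩, h3⟩
  refine (Finset.card_le_card hsub).trans ?_
  refine (Finset.card_insert_le _ _).trans ?_
  have h1 := Finset.card_union_le (E.image fun n : ℕ => (n : ℤ)) (E.image fun n : ℕ => -(n : ℤ))
  have h2 : (E.image fun n : ℕ => (n : ℤ)).card ≤ E.card := Finset.card_image_le
  have h3 : (E.image fun n : ℕ => -(n : ℤ)).card ≤ E.card := Finset.card_image_le
  omega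

theorem of_pos (P : ℕ → Prop)
    (h : ∀ ε : ℝ, 0 < ε → ∃ N₀ : ℕ, ∀ N : ℕ, N₀ ≤ N →
      (({c : ℕ | 1 ≤ c ∧ c ≤ N ∧ ¬ P c}.ncard : ℕ) : ℝ) ≤ ε * N) :
    AlmostAll fun c => P c.natAbs := by
  classical
  unfold AlmostAll
  rw [Metric.tendsto_atTop]
  intro ε hε
  obtain ⟨N₀, hN₀⟩ := h (ε / 2) (by positivity)
  obtain ⟨N₁, hN₁⟩ := exists_nat_gt (1 / ε)
  refine ⟨max N₀ N₁, fun N hN => ?_⟩
  have hN0 : N₀ ≤ N := le_trans (le_max_left _ _) hN
  have hN1 : N₁ ≤ N := le_trans (le_max_right _ _) hN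
  have hexc := hN₀ N hN0
  have hset : ({c : ℕ | 1 ≤ c ∧ c ≤ N ∧ ¬ P c}.ncard : ℕ) =
      ((Finset.Icc 1 N).filter fun c => ¬ P c).card := by
    rw [← Set.ncard_coe_finset]
    congr 1
    ext c
    simp [and_assoc]
  rw [hset] at hexc
  have hpos : (0 : ℝ) < 2 * (N : ℝ) + 1 := by positivity
  rw [findns_ncard]
  have hsum := Finset.card_filter_add_card_filter_not (s := Finset.Icc (-(N : ℤ)) N)
    (fun c : ℤ => P c.natAbs)
  rw [findns_card] at hsum
  have hE := findns_exc P N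
  set A := ((Finset.Icc (-(N : ℤ)) N).filter fun c => P c.natAbs).card with hA
  set B := ((Finset.Icc (-(N : ℤ)) N).filter fun c => ¬ P c.natAbs).card with hB
  set E := ((Finset.Icc 1 N).filter fun c => ¬ P c).card with hEE
  have hsumR : (A : ℝ) + B = 2 * N + 1 := by exact_mod_cast hsum
  have hER : (B : ℝ) ≤ 1 + 2 * E := by exact_mod_cast hE
  have hB0 : (0 : ℝ) ≤ B := Nat.cast_nonneg _
  have hlt : (1 : ℝ) < ε * (N + 1) := by
    have h1 : 1 / ε < (N : ℝ) := lt_of_lt_of_le hN₁ (by exact_mod_cast hN1)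
    rw [div_lt_iff₀ hε] at h1
    nlinarith
  rw [Real.dist_eq]
  have heq : (A : ℝ) / (2 * N + 1) - 1 = -(B / (2 * N + 1)) := by
    field_simp
    linarith
  rw [heq, abs_neg, abs_of_nonneg (div_nonneg hB0 hpos.le), div_lt_iff₀ hpos]
  nlinarith

theorem density {m : ℕ} (hm : Odd m) (C : ℕ) : AlmostAll fun c => ∃ p q : ℕ, p.Prime ∧ q.Prime ∧
    p ≠ q ∧ C < p ∧ C < q ∧ m.Coprime (p - 1) ∧ m.Coprime (q - 1) ∧ padicValInt p c = 1 ∧
    padicValInt q c = 1 := by
  have : NeZero m := ⟨by rintro rfl; simp at hm⟩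
  have hu : IsUnit (2 : ZMod m) := by
    have h := (ZMod.isUnit_iff_coprime 2 m).2 (Nat.coprime_two_left.2 hm)
    exact_mod_cast h
  have hd := not_summable_ap m hu
  have hcop : ∀ p : ℕ, p.Prime → (p : ZMod m) = 2 → m.Coprime (p - 1) := by
    intro p hp hp2
    have h1 : ((p - 1 : ℕ) : ZMod m) = 1 := by
      rw [Nat.cast_sub hp.one_lt.le, hp2]
      norm_num
    have h2 : IsUnit ((p - 1 : ℕ) : ZMod m) := by rw [h1]; exact isUnit_one
    exact ((ZMod.isUnit_iff_coprime _ _).1 h2).symm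
  refine AlmostAll.mono (of_pos (fun c => ∃ p q : ℕ,
    p ∈ {n : ℕ | n.Prime ∧ (n : ZMod m) = 2} ∧ q ∈ {n : ℕ | n.Prime ∧ (n : ZMod m) = 2} ∧
    p ≠ q ∧ C < p ∧ C < q ∧ padicValNat p c = 1 ∧ padicValNat q c = 1)
    (fun ε hε => almost_pos _ (fun p hp => hp.1) hd C hε)) ?_
  rintro c ⟨p, q, hp, hq, hpq, hCp, hCq, h1, h2⟩
  exact ⟨p, q, hp.1, hq.1, hpq, hCp, hCq, hcop p hp.1 hp.2, hcop q hq.1 hq.2, h1, h2⟩

end Pool.Agent.DNS
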