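import Mathlib

/-!
# DNS-Mom: the second moment of the number of prime factors in `T`

With `σ = ∑_{p ∈ T} 1 / p`, `ω c` the number of `p ∈ T` with `p ∣ c`, the sum of `(ω c - σ) ^ 2` over `c ≤ N` is at
most `N σ + 2 σ |T|`, because `∑ ω c ^ 2 ≤ N σ ^ 2 + N σ` and `∑ ω c ≥ N σ - |T|`. So few `c` have `ω c ≤ 1`.
-/

open scoped BigOperators

namespace Pool.Agent.DNS

private theorem momdns_cnt (N d : ℕ) :
    ∑ c ∈ Finset.Icc 1 N, (if d ∣ c then (1 : ℝ) else 0) = ((N / d : ℕ) : ℝ) := by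
  have h1 : Finset.Icc 1 N = Finset.Ioc 0 N := by
    ext x
    simp only [Finset.mem_Icc, Finset.mem_Ioc]
    omega
  rw [Finset.sum_boole, h1, Nat.Ioc_filter_dvd_card_eq_div]

private theorem momdns_le (N d : ℕ) :
    ∑ c ∈ Finset.Icc 1 N, (if d ∣ c then (1 : ℝ) else 0) ≤ (N : ℝ) * (1 / d) := by
  rw [momdns_cnt, mul_one_div]
  exact Nat.cast_div_le

private theorem momdns_ge (N d : ℕ) (hd : 0 < d) :
    (N : ℝ) * (1 / d) - 1 ≤ ∑ c ∈ Finset.Icc 1 N, (if d ∣ c then (1 : ℝ) else 0) := by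
  rw [momdns_cnt, mul_one_div, sub_le_iff_le_add, div_le_iff₀ (by exact_mod_cast hd)]
  have h1 := Nat.div_add_mod N d
  have h2 := Nat.mod_lt N hd
  have h3 : N ≤ (N / d + 1) * d := by
    calc N = d * (N / d) + N % d := h1.symm
      _ ≤ d * (N / d) + d := by omega
      _ = (N / d + 1) * d := by ring
  exact_mod_cast h3

private theorem momdns_card (T : Finset ℕ) (c : ℕ) :
    ((T.filter fun p => p ∣ c).card : ℝ) = ∑ p ∈ T, (if p ∣ c then (1 : ℝ) else 0) :=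
  (Finset.sum_boole _ _).symm

private theorem momdns_pair (p q : ℕ) (hp : p.Prime) (hq : q.Prime) (N : ℕ) :
    ∑ c ∈ Finset.Icc 1 N, ((if p ∣ c then (1 : ℝ) else 0) * (if q ∣ c then (1 : ℝ) else 0)) ≤
      (N : ℝ) * ((1 / p) * (1 / q)) + (if p = q then (N : ℝ) * (1 / p) else 0) := by
  by_cases h : p = q
  · subst h
    rw [if_pos rfl]
    have h1 : ∀ c ∈ Finset.Icc 1 N, ((if p ∣ c then (1 : ℝ) else 0) * (if p ∣ c then (1 : ℝ) else 0)) =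
        (if p ∣ c then (1 : ℝ) else 0) := by
      intro c _
      split_ifs <;> simp
    rw [Finset.sum_congr rfl h1]
    have h2 := momdns_le N p
    have h3 : 0 ≤ (N : ℝ) * ((1 / p) * (1 / p)) := by positivity
    linarith
  · rw [if_neg h, add_zero]
    have h1 : ∀ c ∈ Finset.Icc 1 N, ((if p ∣ c then (1 : ℝ) else 0) * (if q ∣ c then (1 : ℝ) else 0)) =
        (if p * q ∣ c then (1 : ℝ) else 0) := by
      intro c _
      have hc : Nat.Coprime p q := (Nat.coprime_primes hp hq).2 h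
      by_cases h1 : p ∣ c
      · by_cases h2 : q ∣ c
        · rw [if_pos h1, if_pos h2, if_pos (hc.mul_dvd_of_dvd_of_dvd h1 h2), mul_one]
        · rw [if_pos h1, if_neg h2, if_neg (fun h3 => h2 ((Dvd.intro_left p rfl).trans h3)), mul_zero]
      · rw [if_neg h1, if_neg (fun h3 => h1 ((Dvd.intro q rfl).trans h3)), zero_mul]
    rw [Finset.sum_congr rfl h1]
    refine (momdns_le N (p * q)).trans (le_of_eq ?_)
    push_cast
    rw [one_div_mul_one_div]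

private theorem momdns_sq (T : Finset ℕ) (hT : ∀ p ∈ T, p.Prime) (N : ℕ) :
    ∑ c ∈ Finset.Icc 1 N, ((T.filter fun p => p ∣ c).card : ℝ) ^ 2 ≤
      (N : ℝ) * (∑ p ∈ T, (1 : ℝ) / p) ^ 2 + N * ∑ p ∈ T, (1 : ℝ) / p := by
  have h1 : ∀ c ∈ Finset.Icc 1 N, ((T.filter fun p => p ∣ c).card : ℝ) ^ 2 =
      ∑ p ∈ T, ∑ q ∈ T, ((if p ∣ c then (1 : ℝ) else 0) * (if q ∣ c then (1 : ℝ) else 0)) := by
    intro c _
    rw [momdns_card, sq, Finset.sum_mul_sum]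
  rw [Finset.sum_congr rfl h1, Finset.sum_comm]
  have h2 : ∀ p ∈ T, ∑ c ∈ Finset.Icc 1 N, ∑ q ∈ T,
      ((if p ∣ c then (1 : ℝ) else 0) * (if q ∣ c then (1 : ℝ) else 0)) ≤
      ∑ q ∈ T, ((N : ℝ) * ((1 / p) * (1 / q)) + (if p = q then (N : ℝ) * (1 / p) else 0)) := by
    intro p hp
    rw [Finset.sum_comm]
    exact Finset.sum_le_sum fun q hq => momdns_pair p q (hT p hp) (hT q hq) N
  refine (Finset.sum_le_sum h2).trans (le_of_eq ?_)
  have h3 : ∀ p ∈ T, ∑ q ∈ T, ((N : ℝ) * ((1 / p) * (1 / q)) + (if p = q then (N : ℝ) * (1 / p) else 0)) =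
      (N : ℝ) * ((1 / p) * ∑ q ∈ T, (1 : ℝ) / q) + (N : ℝ) * (1 / p) := by
    intro p hp
    rw [Finset.sum_add_distrib, Finset.sum_ite_eq, if_pos hp, ← Finset.mul_sum, ← Finset.mul_sum]
  rw [Finset.sum_congr rfl h3, Finset.sum_add_distrib, ← Finset.mul_sum, ← Finset.mul_sum,
    ← Finset.sum_mul, sq]

private theorem momdns_one (T : Finset ℕ) (hT : ∀ p ∈ T, p.Prime) (N : ℕ) :
    (N : ℝ) * (∑ p ∈ T, (1 : ℝ) / p) - T.card ≤
      ∑ c ∈ Finset.Icc 1 N, ((T.filter fun p => p ∣ c).card : ℝ) := by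
  have h1 : ∀ c ∈ Finset.Icc 1 N, ((T.filter fun p => p ∣ c).card : ℝ) =
      ∑ p ∈ T, (if p ∣ c then (1 : ℝ) else 0) := fun c _ => momdns_card T c
  rw [Finset.sum_congr rfl h1, Finset.sum_comm]
  have h2 : ∑ p ∈ T, ((N : ℝ) * (1 / p) - 1) ≤
      ∑ p ∈ T, ∑ c ∈ Finset.Icc 1 N, (if p ∣ c then (1 : ℝ) else 0) :=
    Finset.sum_le_sum fun p hp => momdns_ge N p (hT p hp).pos
  refine le_trans (le_of_eq ?_) h2
  rw [Finset.sum_sub_distrib, ← Finset.mul_sum, Finset.sum_const, nsmul_eq_mul, mul_one]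

theorem moment (T : Finset ℕ) (hT : ∀ p ∈ T, p.Prime) (N : ℕ) :
    ∑ c ∈ Finset.Icc 1 N, (((T.filter fun p => p ∣ c).card : ℝ) - ∑ p ∈ T, (1 : ℝ) / p) ^ 2 ≤
      N * ∑ p ∈ T, (1 : ℝ) / p + 2 * (∑ p ∈ T, (1 : ℝ) / p) * T.card := by
  have h2 := momdns_sq T hT N
  have h1 := momdns_one T hT N
  have h0 : 0 ≤ ∑ p ∈ T, (1 : ℝ) / p := Finset.sum_nonneg fun p _ => by positivity
  have h3 : ∑ c ∈ Finset.Icc 1 N,
      (((T.filter fun p => p ∣ c).card : ℝ) - ∑ p ∈ T, (1 : ℝ) / p) ^ 2 =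
      ∑ c ∈ Finset.Icc 1 N, ((T.filter fun p => p ∣ c).card : ℝ) ^ 2 -
        2 * (∑ p ∈ T, (1 : ℝ) / p) * ∑ c ∈ Finset.Icc 1 N, ((T.filter fun p => p ∣ c).card : ℝ) +
        N * (∑ p ∈ T, (1 : ℝ) / p) ^ 2 := by
    have h4 : ∀ c ∈ Finset.Icc 1 N,
        (((T.filter fun p => p ∣ c).card : ℝ) - ∑ p ∈ T, (1 : ℝ) / p) ^ 2 =
        ((T.filter fun p => p ∣ c).card : ℝ) ^ 2 -
          2 * (∑ p ∈ T, (1 : ℝ) / p) * ((T.filter fun p => p ∣ c).card : ℝ) +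
          (∑ p ∈ T, (1 : ℝ) / p) ^ 2 := fun c _ => by ring
    rw [Finset.sum_congr rfl h4, Finset.sum_add_distrib, Finset.sum_sub_distrib, ← Finset.mul_sum,
      Finset.sum_const, nsmul_eq_mul, Nat.card_Icc, Nat.add_sub_cancel]
  rw [h3]
  generalize ∑ p ∈ T, (1 : ℝ) / p = s at *
  generalize ∑ c ∈ Finset.Icc 1 N, ((T.filter fun p => p ∣ c).card : ℝ) = a at *
  nlinarith [mul_le_mul_of_nonneg_left h1 h0]

theorem few (T : Finset ℕ) (hT : ∀ p ∈ T, p.Prime) (hσ : 1 < ∑ p ∈ T, (1 : ℝ) / p) (N : ℕ) :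
    ((((Finset.Icc 1 N).filter fun c => (T.filter fun p => p ∣ c).card ≤ 1).card : ℕ) : ℝ) *
        (∑ p ∈ T, (1 : ℝ) / p - 1) ^ 2 ≤
      N * ∑ p ∈ T, (1 : ℝ) / p + 2 * (∑ p ∈ T, (1 : ℝ) / p) * T.card := by
  refine le_trans ?_ (moment T hT N)
  rw [← nsmul_eq_mul, ← Finset.sum_const]
  refine le_trans (Finset.sum_le_sum fun c hc => ?_) (Finset.sum_le_sum_of_subset_of_nonneg
    (Finset.filter_subset (fun c => (T.filter fun p => p ∣ c).card ≤ 1) (Finset.Icc 1 N))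
    fun c _ _ => sq_nonneg _)
  have h1 : ((T.filter fun p => p ∣ c).card : ℝ) ≤ 1 := by
    exact_mod_cast (Finset.mem_filter.1 hc).2
  nlinarith

end Pool.Agent.DNS
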